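import Pool.Agent.Helper33P.Trunc2

/-!
# The infrared bound at all parameters for clusters with at most `n` points, almost every `k`

Nearest-neighbour bond percolation on `ℤ^d`, every `d ≥ 1`. Let `τ_{p,n}(x)` be the probability that
`0 ↔ x` and the cluster of `0` has at most `n` points. The supremum over ALL `p ∈ [0, 1]` (critical
and supercritical included) of the Fourier transforms `τ̂_{p,n}(k)` has mean at most
`1 + 4 (1 + [log₂ n])³` over the wave vectors. Hence for almost every `k` there is `C(k)` with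
`(1 - D̂(k)) τ̂_{p,n}(k) ≤ C(k) (1 + log n)³ (1 + log (1 + log n))²` for all `n` and all `p`.

Proof (`Pool/Agent/Helper33P`): all the percolations are coupled, so that the clusters of a point
form an increasing chain; the inequality of Rademacher and Menshov is applied, in each dyadic range
of sizes up to `n`, to the Fourier transforms of the sets of the chain.
-/

set_option autoImplicit false

open MeasureTheory

namespace Pool.Agent.Results.MP_54f242_pr.AllParametersSmallClusters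

/-- the graph of the occupied edges: the edge from `x` to `x + e_i` is occupied if `ω (x, i)` -/
def opn {d : ℕ} (ω : (Fin d → ℤ) × Fin d → Bool) : SimpleGraph (Fin d → ℤ) :=
  SimpleGraph.fromRel (fun a b : Fin d → ℤ =>
    ∃ i : Fin d, b = a + Pi.single i (1 : ℤ) ∧ ω (a, i) = true)

/-- bond percolation on `ℤ^d`: the edges are occupied independently with probability `p` -/
noncomputable def P (d : ℕ) (p : NNReal) (hp : p ≤ 1) : Measure ((Fin d → ℤ) × Fin d → Bool) :=
  Measure.infinitePi (fun _ : (Fin d → ℤ) × Fin d => (PMF.bernoulli p hp).toMeasure)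

/-- `τ_{p,n}(x) = P_p(0 ↔ x, |C(0)| ≤ n)` -/
noncomputable def tau (d n : ℕ) (p : NNReal) (hp : p ≤ 1) (x : Fin d → ℤ) : ℝ :=
  (P d p hp {ω | (opn ω).Reachable 0 x ∧
    Set.encard {y : Fin d → ℤ | (opn ω).Reachable 0 y} ≤ n}).toReal

/-- the Fourier transform `∑_x τ_{p,n}(x) cos (k · x)` -/
noncomputable def tauHat (d n : ℕ) (p : NNReal) (hp : p ≤ 1) (k : Fin d → ℝ) : ℝ :=
  ∑' x : Fin d → ℤ, tau d n p hp x * Real.cos (∑ i, k i * (x i : ℝ))

/-- `D̂(k) = (1 / d) ∑_i cos k_i` -/
noncomputable def DHat {d : ℕ} (k : Fin d → ℝ) : ℝ := (1 / (d : ℝ)) * ∑ i : Fin d, Real.cos (k i)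

/-- the cube `(-π, π]^d` of the wave vectors -/
def cube (d : ℕ) : Set (Fin d → ℝ) := Set.pi Set.univ (fun _ => Set.Ioc (-Real.pi) Real.pi)

theorem result (d : ℕ) :
    (∀ n : ℕ, ∃ W : (Fin d → ℝ) → ℝ, Continuous W ∧
      (∀ (p : NNReal) (hp : p ≤ 1) (k : Fin d → ℝ), tauHat d n p hp k ≤ W k) ∧
      ∫ k in cube d, W k ≤ (2 * Real.pi) ^ d * (1 + 4 * (1 + (Nat.log 2 n : ℝ)) ^ 3)) ∧
    ∀ᵐ k : Fin d → ℝ, k ∈ cube d → ∃ C : ℝ, ∀ n : ℕ, 1 ≤ n → ∀ (p : NNReal) (hp : p ≤ 1),
      (1 - DHat k) * tauHat d n p hp k ≤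
        C * ((1 + Real.log n) ^ 3 * (1 + Real.log (1 + Real.log n)) ^ 2) := by
  refine ⟨fun n => Helper33P.majorant_small n, ?_⟩
  filter_upwards [Helper33P.ae_small (d := d)] with k hk hkc
  obtain ⟨C, hC⟩ := hk hkc
  refine ⟨2 * C, fun n hn p hp => ?_⟩
  have h1 : tauHat d n p hp k ≤
      C * ((1 + Real.log n) ^ 3 * (1 + Real.log (1 + Real.log n)) ^ 2) := hC n hn p hp
  have h2 : 0 ≤ tauHat d n p hp k := Helper33P.tn_hat_nonneg n p hp k
  have h3 : |DHat k| ≤ 1 := InfraredMean.Dhat_le k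
  have h4 := (abs_le.1 h3).1
  nlinarith

end Pool.Agent.Results.MP_54f242_pr.AllParametersSmallClusters
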