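import Pool.Agent.Helper26.IR.All

/-!
# The infrared bound of percolation for almost every wave vector, outside few scales

Nearest-neighbour bond percolation on `ℤ^d`, every `d ≥ 1`, at the parameters `p` of finite
susceptibility. Put `Ψ(p) = E_p ∑_{m ≤ |C(0)|} (1 + [log₂ m])² / m`, which is at most
`36 (2 + log₂ χ(p))³`. The supremum over the parameters `q` from `p₀` to `p` of the Fourier
transforms `τ̂_q(k)` has mean at most `3 + 52 (Ψ(p) - Ψ(p₀))` over the wave vectors. So the blocks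
`i ≤ Ψ(p) < i + 1` of parameters have majorants of bounded mean, and for almost every `k` the
infrared bound holds up to a factor `C(k) A_i` in all the blocks, whenever `∑ 1 / A_i` is finite,
and up to a factor `A_i` outside a set of blocks of finite total weight `∑ b_i`, whenever
`∑ b_i / A_i` is finite; for the constant factor `A` the proportion of the exceptional blocks is
at most `C(k) / A`, for infinitely many `n`, among the first `n` blocks.

Proof (`Pool/Agent/Helper26/IR`): the inequality of Rademacher and Menshov for the increments of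
the chain of the clusters of a point beyond the cluster at `p₀`, in the ranges of sizes from
`2^i |C|` to `2^(i+1) |C|`, and the convergence of the means over boxes.
-/

set_option autoImplicit false

open MeasureTheory Filter

namespace Pool.Agent.Results.MP_54f242_pr.BlocksOfParameters

/-- the graph of the occupied edges: the edge from `x` to `x + e_i` is occupied if `ω (x, i)` -/
def opn {d : ℕ} (ω : (Fin d → ℤ) × Fin d → Bool) : SimpleGraph (Fin d → ℤ) :=
  SimpleGraph.fromRel (fun a b : Fin d → ℤ =>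
    ∃ i : Fin d, b = a + Pi.single i (1 : ℤ) ∧ ω (a, i) = true)

/-- bond percolation on `ℤ^d`: the edges are occupied independently with probability `p` -/
noncomputable def P (d : ℕ) (p : NNReal) (hp : p ≤ 1) : Measure ((Fin d → ℤ) × Fin d → Bool) :=
  Measure.infinitePi (fun _ : (Fin d → ℤ) × Fin d => (PMF.bernoulli p hp).toMeasure)

/-- the two-point function `τ_p(x) = P_p(0 ↔ x)` -/
noncomputable def tau (d : ℕ) (p : NNReal) (hp : p ≤ 1) (x : Fin d → ℤ) : ℝ :=
  (P d p hp {ω | (opn ω).Reachable 0 x}).toReal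

/-- the susceptibility `χ(p) = ∑_x τ_p(x)` -/
noncomputable def chi (d : ℕ) (p : NNReal) (hp : p ≤ 1) : ℝ := ∑' x, tau d p hp x

/-- the Fourier transform `τ̂_p(k) = ∑_x τ_p(x) cos (k · x)` -/
noncomputable def tauHat (d : ℕ) (p : NNReal) (hp : p ≤ 1) (k : Fin d → ℝ) : ℝ :=
  ∑' x : Fin d → ℤ, tau d p hp x * Real.cos (∑ i, k i * (x i : ℝ))

/-- `D̂(k) = (1 / d) ∑_i cos k_i` -/
noncomputable def DHat {d : ℕ} (k : Fin d → ℝ) : ℝ := (1 / (d : ℝ)) * ∑ i : Fin d, Real.cos (k i)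

/-- `ψ(s) = ∑_{m = 1}^s (1 + [log₂ m])² / m` -/
noncomputable def psi (s : ℕ) : ℝ :=
  ∑ m ∈ Finset.range s, (1 + (Nat.log 2 (m + 1) : ℝ)) ^ 2 / ((m : ℝ) + 1)

/-- `Ψ(p) = E_p ψ(|C(0)|)`, where `|C(0)|` is the number of points joined to `0` -/
noncomputable def Psi (d : ℕ) (p : NNReal) (hp : p ≤ 1) : ℝ :=
  ∫ ω, psi (Nat.card {y : Fin d → ℤ // (opn ω).Reachable 0 y}) ∂(P d p hp)

/-- the cube `(-π, π]^d` of the wave vectors -/
def cube (d : ℕ) : Set (Fin d → ℝ) := Set.pi Set.univ (fun _ => Set.Ioc (-Real.pi) Real.pi)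

/-- the block `i` is exceptional for the wave vector `k` and the constant `A`: the infrared bound
`(1 - D̂(k)) τ̂_p(k) ≤ A` fails for some `p` of finite susceptibility with `i ≤ Ψ(p) < i + 1` -/
def Exceptional (d : ℕ) (k : Fin d → ℝ) (A : ℝ) (i : ℕ) : Prop :=
  ∃ (p : NNReal) (hp : p ≤ 1), Summable (tau d p hp) ∧ (i : ℝ) ≤ Psi d p hp ∧
    Psi d p hp < i + 1 ∧ A < (1 - DHat k) * tauHat d p hp k

open Classical in
theorem result (d : ℕ) :
    (∀ (p : NNReal) (hp : p ≤ 1), Summable (tau d p hp) →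
      1 ≤ Psi d p hp ∧ Psi d p hp ≤ 36 * (2 + Real.logb 2 (chi d p hp)) ^ 3) ∧
    (∀ (p₀ p : NNReal) (hp₀ : p₀ ≤ 1) (hp : p ≤ 1), p₀ ≤ p → Summable (tau d p hp) →
      ∃ W : (Fin d → ℝ) → ℝ, Continuous W ∧
        (∀ (q : NNReal) (hq : q ≤ 1), p₀ ≤ q → q ≤ p → ∀ k, tauHat d q hq k ≤ W k) ∧
        ∫ k in cube d, W k ≤ (2 * Real.pi) ^ d * (3 + 52 * (Psi d p hp - Psi d p₀ hp₀))) ∧
    (∀ A : ℕ → ℝ, (∀ i, 0 < A i) → (Summable fun i => 1 / A i) →
      ∀ᵐ k : Fin d → ℝ, k ∈ cube d → ∃ C : ℝ, ∀ (p : NNReal) (hp : p ≤ 1),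
        Summable (tau d p hp) → (1 - DHat k) * tauHat d p hp k ≤ C * A ⌊Psi d p hp⌋₊) ∧
    (∀ b A : ℕ → ℝ, (∀ i, 0 ≤ b i) → (∀ i, 0 < A i) → (Summable fun i => b i / A i) →
      ∀ᵐ k : Fin d → ℝ, k ∈ cube d →
        Summable fun i => if Exceptional d k (A i) i then b i else 0) ∧
    ∀ᵐ k : Fin d → ℝ, k ∈ cube d → ∃ C : ℝ, ∃ᶠ n : ℕ in atTop, ∀ A : ℝ, 0 < A →
      (((Finset.range n).filter fun i => Exceptional d k A i).card : ℝ) ≤ C / A * n :=
  ⟨fun p hp hs => ⟨Helper26.IR.one_le_Psi p hp hs, Helper26.IR.Psi_le p hp hs⟩,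
    fun p₀ p hp₀ hp h hs => Helper26.IR.majorant' p₀ p hp₀ h hp hs,
    fun A hA h => Helper26.IR.ae_all A hA h,
    fun b A hb hA h => Helper26.IR.ae_sum b A hb hA h,
    Helper26.IR.ae_count⟩

end Pool.Agent.Results.MP_54f242_pr.BlocksOfParameters
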