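import Pool.Agent.Helper33P.Sub7

/-!
# The Hausdorff dimension of the wave vectors with a large structure factor

Nearest-neighbour bond percolation on `ℤ^d`, every `d ≥ 1`. For a function `f` on `ℤ^d` let
`S(f) = ∑_x (1 + |x|²) f(x)`. Let `τ_p` be the two-point function and `τ_{p,n}` its part which comes
from the clusters of at most `n` points. For `0 < a < 1`, the wave vectors `k` for which there is no
`C` with `τ̂_{p,n}(k) ≤ C S(τ_{p,n}) ^ a` for all `n` and all `p ∈ [0, 1]`, and
`τ̂_p(k) ≤ C S(τ_p) ^ a` for all `p` with `S(τ_p) < ∞`, form a set of Hausdorff dimension at most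
`d - 2 a / (1 - a)`.

Proof (`Pool/Agent/Helper33P`): the maximal inequality for the monotone coupling of all `p` (the mean
of the supremum over `p` is at most a power of the logarithm of the size); clusters whose size is much
larger than a power of `S` contribute little; since `τ̂ ≥ 0`, the function `√τ̂` is Lipschitz with a
constant of the order `√S`, so that a large value of `τ̂` is large on a big cell of a grid; a covering
of the cube by these cells.
-/

set_option autoImplicit false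

open MeasureTheory

namespace Pool.Agent.Results.MP_54f242_pr.DimensionOfExceptionalSet

/-- the graph of the occupied edges: the edge from `x` to `x + e_i` is occupied if `ω (x, i)` -/
def opn {d : ℕ} (ω : (Fin d → ℤ) × Fin d → Bool) : SimpleGraph (Fin d → ℤ) :=
  SimpleGraph.fromRel (fun a b : Fin d → ℤ =>
    ∃ i : Fin d, b = a + Pi.single i (1 : ℤ) ∧ ω (a, i) = true)

/-- bond percolation on `ℤ^d`: the edges are occupied independently with probability `p` -/
noncomputable def P (d : ℕ) (p : NNReal) (hp : p ≤ 1) : Measure ((Fin d → ℤ) × Fin d → Bool) :=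
  Measure.infinitePi (fun _ : (Fin d → ℤ) × Fin d => (PMF.bernoulli p hp).toMeasure)

/-- the two-point function `τ_p(x) = P_p(0 ↔ x)` -/
noncomputable def tau (d : ℕ) (p : NNReal) (hp : p ≤ 1) (x : Fin d → ℤ) : ℝ :=
  (P d p hp {ω | (opn ω).Reachable 0 x}).toReal

/-- `τ_{p,n}(x) = P_p(0 ↔ x, |C(0)| ≤ n)` -/
noncomputable def tauN (d n : ℕ) (p : NNReal) (hp : p ≤ 1) (x : Fin d → ℤ) : ℝ :=
  (P d p hp {ω | (opn ω).Reachable 0 x ∧
    Set.encard {y : Fin d → ℤ | (opn ω).Reachable 0 y} ≤ n}).toReal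

/-- the Fourier transform `∑_x f(x) cos (k · x)` -/
noncomputable def hat {d : ℕ} (f : (Fin d → ℤ) → ℝ) (k : Fin d → ℝ) : ℝ :=
  ∑' x : Fin d → ℤ, f x * Real.cos (∑ i, k i * (x i : ℝ))

/-- `(1 + |x|²) f(x)`, with the norm `|x| = ∑ |x_i|` -/
noncomputable def wgt {d : ℕ} (f : (Fin d → ℤ) → ℝ) (x : Fin d → ℤ) : ℝ :=
  (1 + (∑ i, |(x i : ℝ)|) ^ 2) * f x

/-- the second moment `S(f) = ∑_x (1 + |x|²) f(x)` -/
noncomputable def S {d : ℕ} (f : (Fin d → ℤ) → ℝ) : ℝ := ∑' x : Fin d → ℤ, wgt f x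

/-- the cube `(-π, π]^d` of the wave vectors -/
def cube (d : ℕ) : Set (Fin d → ℝ) := Set.pi Set.univ (fun _ => Set.Ioc (-Real.pi) Real.pi)

theorem result (d : ℕ) (hd : 1 ≤ d) (a : ℝ) (ha : 0 < a) (ha1 : a < 1) :
    dimH {k : Fin d → ℝ | k ∈ cube d ∧ ¬ ∃ C : ℝ,
      (∀ (n : ℕ) (p : NNReal) (hp : p ≤ 1),
        hat (tauN d n p hp) k ≤ C * S (tauN d n p hp) ^ a) ∧
      ∀ (p : NNReal) (hp : p ≤ 1), Summable (wgt (tau d p hp)) →
        hat (tau d p hp) k ≤ C * S (tau d p hp) ^ a} ≤
      ENNReal.ofReal (d - 2 * a / (1 - a)) :=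
  Helper33P.dim_all hd a ha ha1

end Pool.Agent.Results.MP_54f242_pr.DimensionOfExceptionalSet
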