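import Pool.Agent.Helper33P.Fib2

/-!
# A bound of the structure factor which is uniform on almost every fibre of a Lipschitz map

Nearest-neighbour bond percolation on `ℤ^d`. For a function `f` on `ℤ^d` let
`S(f) = ∑_x (1 + |x|²) f(x)`. Let `τ_p` be the two-point function and `τ_{p,n}` its part which comes
from the clusters of at most `n` points. Let `φ : ℝ^d → ℝ^m` be a Lipschitz map, `1 ≤ m < d`, and let
`(d - m) / (d - m + 2) < a < 1`. For almost every `v ∈ ℝ^m` there is one constant `C` such that, for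
all the wave vectors `k` with `φ(k) = v`, `τ̂_{p,n}(k) ≤ C S(τ_{p,n}) ^ a` for all `n` and all
`p ∈ [0, 1]`, and `τ̂_p(k) ≤ C S(τ_p) ^ a` for all `p` with `S(τ_p) < ∞`.

Proof (`Pool/Agent/Helper33P`): the cells of a grid on which the structure factor is large are
counted by the maximal inequality for the monotone coupling of all `p`; the sum of the powers `m` of
the diameters of all these cells, over all the scales of `S`, is finite, so that almost every `v` is
in finitely many of their images.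
-/

set_option autoImplicit false

open MeasureTheory

namespace Pool.Agent.Results.MP_54f242_pr.UniformOnFibres

/-- the graph of the occupied edges: the edge from `x` to `x + e_i` is occupied if `ω (x, i)` -/
def opn {d : ℕ} (ω : (Fin d → ℤ) × Fin d → Bool) : SimpleGraph (Fin d → ℤ) :=
  SimpleGraph.fromRel (fun a b : Fin d → ℤ =>
    ∃ i : Fin d, b = a + Pi.single i (1 : ℤ) ∧ ω (a, i) = true)

/-- bond percolation on `ℤ^d`: the edges are occupied independently with probability `p` -/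
noncomputable def P (d : ℕ) (p : NNReal) (hp : p ≤ 1) : Measure ((Fin d → ℤ) × Fin d → Bool) :=
  Measure.infinitePi (fun _ : (Fin d → ℤ) × Fin d => (PMF.bernoulli p hp).toMeasure)

/-- the two-point function `τ_p(x) = P_p(0 ↔ x)` -/
noncomputable def tau (d : ℕ) (p : NNReal) (hp : p ≤ 1) (x : Fin d → ℤ) : ℝ :=
  (P d p hp {ω | (opn ω).Reachable 0 x}).toReal

/-- `τ_{p,n}(x) = P_p(0 ↔ x, |C(0)| ≤ n)` -/
noncomputable def tauN (d n : ℕ) (p : NNReal) (hp : p ≤ 1) (x : Fin d → ℤ) : ℝ :=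
  (P d p hp {ω | (opn ω).Reachable 0 x ∧
    Set.encard {y : Fin d → ℤ | (opn ω).Reachable 0 y} ≤ n}).toReal

/-- the Fourier transform `∑_x f(x) cos (k · x)` -/
noncomputable def hat {d : ℕ} (f : (Fin d → ℤ) → ℝ) (k : Fin d → ℝ) : ℝ :=
  ∑' x : Fin d → ℤ, f x * Real.cos (∑ i, k i * (x i : ℝ))

/-- `(1 + |x|²) f(x)`, with the norm `|x| = ∑ |x_i|` -/
noncomputable def wgt {d : ℕ} (f : (Fin d → ℤ) → ℝ) (x : Fin d → ℤ) : ℝ :=
  (1 + (∑ i, |(x i : ℝ)|) ^ 2) * f x

/-- the second moment `S(f) = ∑_x (1 + |x|²) f(x)` -/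
noncomputable def S {d : ℕ} (f : (Fin d → ℤ) → ℝ) : ℝ := ∑' x : Fin d → ℤ, wgt f x

/-- the cube `(-π, π]^d` of the wave vectors -/
def cube (d : ℕ) : Set (Fin d → ℝ) := Set.pi Set.univ (fun _ => Set.Ioc (-Real.pi) Real.pi)

theorem result (d m : ℕ) (hm : 1 ≤ m) (hmd : m < d) (a : ℝ)
    (ha : ((d : ℝ) - m) / (d - m + 2) < a) (ha1 : a < 1) (L : NNReal)
    (φ : (Fin d → ℝ) → (Fin m → ℝ)) (hφ : LipschitzWith L φ) :
    ∀ᵐ v : Fin m → ℝ, ∃ C : ℝ, ∀ k ∈ cube d, φ k = v →
      (∀ (n : ℕ) (p : NNReal) (hp : p ≤ 1),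
        hat (tauN d n p hp) k ≤ C * S (tauN d n p hp) ^ a) ∧
      ∀ (p : NNReal) (hp : p ≤ 1), Summable (wgt (tau d p hp)) →
        hat (tau d p hp) k ≤ C * S (tau d p hp) ^ a :=
  Helper33P.fib_all m hm hmd a ha ha1 L φ hφ

end Pool.Agent.Results.MP_54f242_pr.UniformOnFibres
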